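import Pool.Agent.U682.FT.Main
import Pool.Agent.U427.FTG.Exist

/-!
# `F_4(C ⊕ D)` is a `k_R`-space for every discrete space `D`

`C` is a convergent sequence with its limit point.  The free topological group is taken in the sense
of Markov and is given by its universal property: `IsFreeTopologicalGroup i` says that the map
`i : X → F` into a Hausdorff topological group is a topological embedding, that its image generates
`F` algebraically as a free group on `X`, and that every continuous map from `X` to a Hausdorff
topological group extends to a continuous homomorphism.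
-/

set_option autoImplicit false

namespace Pool.Agent.Results.MP_c880a5_gt.KRFour

open Topology Filter

/-- A `k_R`-space: a Tychonoff space such that every real function whose restrictions to the
compact subsets are continuous is continuous. -/
def IsKRSpace (Y : Type) [TopologicalSpace Y] : Prop :=
  T35Space Y ∧ ∀ f : Y → ℝ, (∀ K : Set Y, IsCompact K → ContinuousOn f K) → Continuous f

/-- `i : X → F` makes the topological group `F` the free topological group of `X` in the sense of
Markov: `i` is a topological embedding, `F` is the free group on the image, and every continuous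
map from `X` to a Hausdorff topological group extends to a continuous homomorphism (which is
unique, as the image generates `F`). -/
structure IsFreeTopologicalGroup {X F : Type} [TopologicalSpace X] [Group F]
    [TopologicalSpace F] (i : X → F) : Prop where
  embedding : IsEmbedding i
  free : Function.Bijective (FreeGroup.lift i)
  extends_continuous : ∀ (G : Type) [Group G] [TopologicalSpace G] [IsTopologicalGroup G]
    [T2Space G] (f : X → G), Continuous f → ∃ φ : F →* G, Continuous φ ∧ ∀ x, φ (i x) = f x

/-- The set of elements of length at most `n`: products `x₁^{ε₁} ⋯ x_m^{ε_m}` with `m ≤ n`,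
`ε_j = ± 1`, in which no two neighbouring factors cancel. -/
def lengthLE {X F : Type} [Group F] (i : X → F) (n : ℕ) : Set F :=
  {g | ∃ L : List (X × Bool), FreeGroup.IsReduced L ∧ L.length ≤ n ∧
    (L.map fun p => if p.2 then i p.1 else (i p.1)⁻¹).prod = g}

/-- The convergent sequence `{0} ∪ {1 / m : m ≥ 1}`. -/
def Sequence : Set ℝ := {x | x = 0 ∨ ∃ m : ℕ, 1 ≤ m ∧ x = 1 / m}

/-! ### Topology of the space -/

lemma sequence_isOpen (x : Sequence) (hx : (x : ℝ) ≠ 0) : IsOpen ({x} : Set Sequence) := by
  obtain ⟨x, h⟩ := x
  obtain ⟨m, hm, rfl⟩ : ∃ m : ℕ, 1 ≤ m ∧ x = 1 / m := h.resolve_left hx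
  have hm0 : (0 : ℝ) < m := by exact_mod_cast hm
  have hp : (0 : ℝ) < 1 / m - 1 / (m + 1) := by
    rw [sub_pos]
    exact one_div_lt_one_div_of_lt hm0 (by linarith)
  rw [Metric.isOpen_iff]
  rintro y hy
  rw [Set.mem_singleton_iff] at hy
  subst hy
  refine ⟨1 / m - 1 / (m + 1), hp, ?_⟩
  rintro ⟨y, hy⟩ hd
  rw [Metric.mem_ball, Subtype.dist_eq, Real.dist_eq, abs_lt] at hd
  rw [Set.mem_singleton_iff, Subtype.mk.injEq]
  simp only at hd
  have hm1 : (0 : ℝ) < 1 / (m + 1) := by positivity
  rcases hy with rfl | ⟨k, hk, rfl⟩
  · exfalso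
    linarith [hd.1]
  · have hk0 : (0 : ℝ) < k := by exact_mod_cast hk
    have h1 : (1 : ℝ) / (m + 1) < 1 / k := by linarith [hd.1]
    have h2 : (k : ℝ) < m + 1 := by
      rwa [div_lt_div_iff_of_pos_left one_pos (by positivity) hk0] at h1
    have h3 : k ≤ m := by
      have : k < m + 1 := by exact_mod_cast h2
      omega
    rcases Nat.lt_or_ge k m with h4 | h4
    · exfalso
      have h5 : (k : ℝ) + 1 ≤ m := by exact_mod_cast h4
      have h6 : (1 : ℝ) / m ≤ 1 / (k + 1) := one_div_le_one_div_of_le (by positivity) h5
      have h7 : (1 : ℝ) / k - 1 / m < 1 / m - 1 / (m + 1) := hd.2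
      have h8 : (1 : ℝ) / m - 1 / (m + 1) = 1 / (m * (m + 1)) := by
        field_simp
        ring
      have h9 : (1 : ℝ) / k - 1 / (k + 1) = 1 / (k * (k + 1)) := by
        field_simp
        ring
      have h10 : (1 : ℝ) / (m * (m + 1)) < 1 / (k * (k + 1)) := by
        refine one_div_lt_one_div_of_lt (by positivity) ?_
        nlinarith
      linarith
    · rw [le_antisymm h3 h4]

/-- the only point of the sum that is not isolated is the limit of the sequence -/
lemma compact_derived {C D : Type} [TopologicalSpace C] [TopologicalSpace D] [DiscreteTopology D]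
    (h : C ≃ₜ Sequence) : IsCompact {x : C ⊕ D | ¬ IsOpen ({x} : Set (C ⊕ D))} := by
  refine Set.Finite.isCompact (Set.Finite.subset (Set.finite_singleton
    (Sum.inl (h.symm ⟨0, Or.inl rfl⟩))) ?_)
  rintro (x | d) hx
  · rw [Set.mem_singleton_iff]
    by_contra hne
    apply hx
    have h1 : ((h x : Sequence) : ℝ) ≠ 0 := by
      intro h0
      apply hne
      congr 1
      rw [eq_comm, h.symm_apply_eq]
      exact Subtype.ext h0.symm
    have h2 := (sequence_isOpen (h x) h1).preimage h.continuous
    have h3 : h ⁻¹' {h x} = {x} := by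
      ext y
      simp
    rw [h3] at h2
    have h4 := IsOpenEmbedding.isOpenMap (X := C) (Y := C ⊕ D) IsOpenEmbedding.inl _ h2
    rwa [Set.image_singleton] at h4
  · exfalso
    apply hx
    have h4 := IsOpenEmbedding.isOpenMap (X := D) (Y := C ⊕ D) IsOpenEmbedding.inr _
      (isOpen_discrete {d})
    rwa [Set.image_singleton] at h4

/-! ### The free topological group -/

/-- the topology of a Fréchet–Urysohn space is determined by real functions on compact sets -/
theorem kr_of_frechet {Y : Type} [TopologicalSpace Y] [FrechetUrysohnSpace Y] (f : Y → ℝ)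
    (hf : ∀ K : Set Y, IsCompact K → ContinuousOn f K) : Continuous f := by
  refine SeqContinuous.continuous ?_
  intro u a hu
  have hK : IsCompact (insert a (Set.range u)) := hu.isCompact_insert_range
  have h1 := (hf _ hK) a (Set.mem_insert _ _)
  have h2 : Tendsto u atTop (𝓝[insert a (Set.range u)] a) := by
    rw [tendsto_nhdsWithin_iff]
    exact ⟨hu, Eventually.of_forall fun n => Set.mem_insert_of_mem _ ⟨n, rfl⟩⟩
  exact h1.tendsto.comp h2

theorem lift_mk {X F : Type} [Group F] (i : X → F) (L : List (X × Bool)) :
    FreeGroup.lift i (FreeGroup.mk L) =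
      (L.map fun p => if p.2 then i p.1 else (i p.1)⁻¹).prod := by
  rw [FreeGroup.lift_mk]
  congr 1
  apply List.map_congr_left
  rintro ⟨x, b⟩ _
  cases b <;> rfl

open scoped Pool.Agent.U682.FT in
/-- the part of the free group with the Markov topology of length at most four -/
theorem frechet_of_inducing {X F : Type} [TopologicalSpace X] [TopologicalSpace.MetrizableSpace X]
    (hX : IsCompact {x : X | ¬ IsOpen ({x} : Set X)}) [Group F] [TopologicalSpace F] (i : X → F)
    (e : FreeGroup X ≃ₜ F) (he : ∀ w, e w = FreeGroup.lift i w) :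
    FrechetUrysohnSpace (lengthLE i 4) := by
  classical
  refine ⟨fun s a ha => ?_⟩
  have h1 : (a : F) ∈ closure ((↑) '' s : Set F) := closure_subtype.1 ha
  have h2 : e.symm (a : F) ∈ closure (e ⁻¹' ((↑) '' s : Set F)) := by
    rw [← e.preimage_closure]
    simpa using h1
  obtain ⟨u, hu, hul⟩ := Pool.Agent.U682.FT.main hX _ (by
    rintro w ⟨⟨g, L, hred, hL, hg⟩, _, hw⟩
    have h3 : FreeGroup.mk L = w := by
      apply e.injective
      rw [he, lift_mk, hg]
      exact hw
    rw [← h3]
    exact (FreeGroup.norm_mk_le (L₁ := L)).trans hL) _ h2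
  choose v hv hvu using hu
  refine ⟨v, hv, ?_⟩
  rw [tendsto_subtype_rng]
  simp only [hvu]
  have h4 : Tendsto (fun n => e (u n)) atTop (𝓝 (e (e.symm (a : F)))) :=
    (e.continuous.tendsto _).comp hul
  rwa [e.apply_symm_apply] at h4

theorem t35_of_t2 {F : Type} [Group F] [TopologicalSpace F] [IsTopologicalGroup F] [T2Space F]
    (S : Set F) : T35Space S := by
  let _ : UniformSpace F := IsTopologicalGroup.rightUniformSpace F
  have : T35Space F := {}
  infer_instance

open scoped Pool.Agent.U682.FT in
theorem kr_four {X : Type} [TopologicalSpace X] [TopologicalSpace.MetrizableSpace X]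
    (hX : IsCompact {x : X | ¬ IsOpen ({x} : Set X)})
    {F : Type} [Group F] [TopologicalSpace F] [IsTopologicalGroup F] [T2Space F] (i : X → F)
    (hi : IsFreeTopologicalGroup i) : IsKRSpace (lengthLE i 4) := by
  have hcl : Continuous (FreeGroup.lift i) :=
    Pool.Agent.U682.FT.continuous_lift hi.embedding.continuous
  have : T2Space (FreeGroup X) := Pool.Agent.U427.FTG.t2
  obtain ⟨φ, hφ, hφi⟩ := hi.extends_continuous (FreeGroup X) FreeGroup.of
    Pool.Agent.U682.FT.continuous_of
  have hφ1 : ∀ w, φ (FreeGroup.lift i w) = w := by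
    intro w
    have : (φ.comp (FreeGroup.lift i)) = MonoidHom.id _ := by
      ext x
      simp [hφi]
    exact DFunLike.congr_fun this w
  have hφ2 : ∀ g, FreeGroup.lift i (φ g) = g := by
    intro g
    obtain ⟨w, rfl⟩ := hi.free.2 g
    rw [hφ1]
  let e : FreeGroup X ≃ₜ F :=
    { toFun := FreeGroup.lift i
      invFun := φ
      left_inv := hφ1
      right_inv := hφ2
      continuous_toFun := hcl
      continuous_invFun := hφ }
  have := frechet_of_inducing hX i e (fun w => rfl)
  exact ⟨t35_of_t2 _, kr_of_frechet⟩

open scoped Pool.Agent.U682.FT in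
/-- the free group with the finest group topology for which the space maps continuously -/
theorem isFree_of {X : Type} [TopologicalSpace X] [TopologicalSpace.MetrizableSpace X] :
    IsFreeTopologicalGroup (FreeGroup.of : X → FreeGroup X) where
  embedding := Pool.Agent.U427.FTG.embedding
  free := by
    have h : FreeGroup.lift (FreeGroup.of : X → FreeGroup X) = MonoidHom.id _ := by
      ext x
      simp
    rw [h]
    exact Function.bijective_id
  extends_continuous := fun G _ _ _ _ f hf =>
    ⟨FreeGroup.lift f, Pool.Agent.U682.FT.continuous_lift hf, fun x => by simp⟩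

/-- **`F_4(C ⊕ D)` is a `k_R`-space for every discrete space `D`, countable or uncountable.**  Let `C`
be homeomorphic to the convergent sequence `{0} ∪ {1 / m}` and `D` discrete.  The topological sum
`C ⊕ D` has a free topological group in the sense of Markov (a Hausdorff group), and for each free
topological group `F` of `C ⊕ D` the subspace of the elements of length at most four is a
`k_R`-space. -/
theorem result (C D : Type) [TopologicalSpace C] [TopologicalSpace D] [DiscreteTopology D]
    (h : C ≃ₜ Sequence) :
    (∃ (F : Type) (_ : Group F) (_ : TopologicalSpace F) (_ : IsTopologicalGroup F)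
      (_ : T2Space F) (i : C ⊕ D → F), IsFreeTopologicalGroup i) ∧
    ∀ (F : Type) [Group F] [TopologicalSpace F] [IsTopologicalGroup F] [T2Space F]
      (i : C ⊕ D → F), IsFreeTopologicalGroup i → IsKRSpace (lengthLE i 4) := by
  have hC : TopologicalSpace.MetrizableSpace C := h.isEmbedding.metrizableSpace
  have hX : TopologicalSpace.MetrizableSpace (C ⊕ D) := by
    let _ := TopologicalSpace.metrizableSpaceMetric C
    let _ := TopologicalSpace.metrizableSpaceMetric D
    let _ := Metric.metricSpaceSum (X := C) (Y := D)
    infer_instance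
  exact ⟨⟨FreeGroup (C ⊕ D), inferInstance, Pool.Agent.U682.FT.freeTop (C ⊕ D),
    Pool.Agent.U682.FT.freeTopGroup (C ⊕ D), Pool.Agent.U427.FTG.t2, FreeGroup.of, isFree_of⟩,
    fun F _ _ _ _ i hi => kr_four (compact_derived h) i hi⟩

end Pool.Agent.Results.MP_c880a5_gt.KRFour
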